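import Pool.Agent.H95.LimSol

set_option autoImplicit false

open Filter Topology

theorem Pool.Agent.Results.MP_efe010_an.AllConverge.result (A α : ℝ) (h1 : 3 / 4 ≤ A) (h2 : A < 1)
    (hα : α = A) :
    (0 < α ∧ α < (2 - A + √(5 * A ^ 2 - 4 * A ^ 3)) / 2) ∧
      ∀ x : ℕ → ℝ, (∀ i < 3, 0 ≤ x i) → (∀ n, x (n + 3) = (α + x n) / (A + x (n + 2))) →
        Tendsto x atTop (𝓝 ((1 - A + √((1 - A) ^ 2 + 4 * α)) / 2)) := by
  subst hα
  refine ⟨⟨by linarith, ?_⟩, fun x h0 hr => ?_⟩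
  · have : α < √(5 * α ^ 2 - 4 * α ^ 3) := Real.lt_sqrt_of_sq_lt (by
      have : 0 < α ^ 2 * (1 - α) := mul_pos (by positivity) (by linarith)
      linarith)
    linarith
  · rw [show (1 - α) ^ 2 + 4 * α = (1 + α) ^ 2 by ring, Real.sqrt_sq (by linarith),
      show (1 - α + (1 + α)) / 2 = 1 by ring]
    exact Pool.Agent.H95.LimSol.conv h1 h2 h0 hr
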